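import Pool.Agent.Lib.MP_50e96d_mp.Final

open Filter Topology
open scoped ENNReal

namespace Pool.Agent.Results.MP_50e96d_mp.SmallGammaLimit

open Pool.Agent.LT2

/-- **Small-`γ` asymptotics of the two-dimensional Lieb–Thirring constants.**
The Lieb–Thirring constant `L_{γ,2}` and the one-eigenvalue constant `L^{(1)}_{γ,2}` satisfy
`L_{γ,2} / L^{(1)}_{γ,2} → 1` as `γ → 0+`; more precisely `γ L_{γ,2}` and `γ L^{(1)}_{γ,2}` both tend
to `1 / (4πe)`. -/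
theorem result :
    Tendsto (fun γ : ℝ => LT γ / LT1 γ) (𝓝[>] 0) (𝓝 1) ∧
    Tendsto (fun γ : ℝ => ENNReal.ofReal γ * LT γ) (𝓝[>] 0)
      (𝓝 (ENNReal.ofReal (1 / (4 * Real.pi * Real.exp 1)))) ∧
    Tendsto (fun γ : ℝ => ENNReal.ofReal γ * LT1 γ) (𝓝[>] 0)
      (𝓝 (ENNReal.ofReal (1 / (4 * Real.pi * Real.exp 1)))) :=
  ⟨ratio_limit, LT_limit, LT1_limit⟩

end Pool.Agent.Results.MP_50e96d_mp.SmallGammaLimit
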